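import Pool.Agent.D0H83.AC.Eff7
import Pool.Agent.D0H83.AC.Eff8

/-!
# `L²`-torsion and torsion homology of complexes of any length with a dominating null-homotopic map

`Γ` is a group, `FreeCx Γ` (starting library `Pool.Agent.TH630.Tor`) are the finite based free chain complexes over
`ℤ[Γ]`, with `C.l2torsion` and `C.DetL2Acyclic` defined by the Fuglede-Kadison determinants of the combinatorial
Laplacians over `Γ`. `torsHn C n X` is the order of the torsion subgroup of the homology in degree `n` of the
complex `C ⊗ ℤ[X]` of a finite `Γ`-set `X`; for `X = Γ/Γ_i` and the cellular chain complex of a universal cover it is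
the order of the torsion of `H_n` of the finite cover.

`Dominates Λ R` (`Pool.Agent.D0H83.AC`): `D (R + R*) = ∑_{t ∈ T} (2 - t - t⁻¹) · 1 + B B*` for a positive integer `D`, a
finite set `T` which generates the subgroup `Λ`, and a matrix `B` over `ℤ[Γ]`: the real part of `R` dominates the
Laplacian of a Cayley graph of `Λ`; the skew-adjoint part is arbitrary.

`homR C h n` is the matrix in degree `n` of the null-homotopic chain map `∂h + h∂` of `C`. (Example: `C` the cellular
chain complex of the universal cover of a finite aspherical complex, `z` a central element of infinite order; the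
multiplication with `1 - z` is null-homotopic, and its real part is one half of the Laplacian `2 - z - z⁻¹` of `⟨z⟩`;
in this case the theorem below is the vanishing theorem of Lück, with a rate of convergence.)

`fixd S n X` is the set of the points of `X` which are fixed by a nontrivial element of `ball S n`, the set of the
products of at most `n` elements of `S` and their inverses.
-/

set_option autoImplicit false

namespace Pool.Agent.Results.MP_98dedd_gt.DominatedHomotopies

open Pool.Agent.D0H83.AC Pool.Agent.Q181.TG Pool.Agent.Helper993.FK Pool.Agent.TH630.Tor Filter Topology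
open Pool.Agent.TH630.Tor.FreeCx (lapM laplacian_eq)

attribute [-instance] Pool.Agent.D0H8.AC.instFx

variable {Γ : Type} [Group Γ]

/-- The Fuglede-Kadison determinant of the right multiplication with the matrix `R` on `ℓ²(Γ)^r`. -/
noncomputable def fkd {r : ℕ} (R : Matrix (Fin r) (Fin r) (MonoidAlgebra ℤ Γ)) : ℝ :=
  fkDet (rMul (R.map toQ))

/-- The spectral distribution function of the square of the Laplacian in degree `n` is `O(δ^(1/8))` at `0`, so the
one of the Laplacian is `O(δ^(1/4))` (`specMeas _ f`: the spectral measure of `f* f` for the von Neumann trace). -/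
def LaplacianBound (C : FreeCx Γ) (n : ℕ) : Prop :=
  ∃ K δ₀ : ℝ, 0 < δ₀ ∧ ∀ δ : ℝ, 0 < δ → δ ≤ δ₀ →
    (specMeas unitVec (C.laplacian n) (Set.Iic δ)).toReal ≤ K * δ ^ (1 / 8 : ℝ)

/-- `(∑_n (-1)^n log |tors H_n(C ⊗ ℤ[X i])|) / |X i|` converges to the `L²`-torsion of `C`. -/
def AlternatingLimit (C : FreeCx Γ) (X : ℕ → Type) [∀ i, Fintype (X i)]
    [∀ i, MulAction Γ (X i)] : Prop :=
  Tendsto (fun i => (∑ n ∈ Finset.range (C.dim + 1), (-1) ^ n * Real.log (torsHn C n (X i))) /
    Nat.card (X i)) atTop (𝓝 C.l2torsion)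

/-- The upper limit of `log |tors H_n(C ⊗ ℤ[X i])| / |X i|` is at most `log b`. -/
def GrowthAtMost (C : FreeCx Γ) (n : ℕ) (b : ℝ) (X : ℕ → Type) [∀ i, Fintype (X i)]
    [∀ i, MulAction Γ (X i)] : Prop :=
  ∀ ε : ℝ, 0 < ε → ∀ᶠ i in atTop, Real.log (torsHn C n (X i)) / Nat.card (X i) ≤ Real.log b + ε

/-- `(-1)^k log |tors H_k(C ⊗ ℤ[X i])| / |X i|` converges to the `L²`-torsion of `C`. -/
def TorsionLimit (C : FreeCx Γ) (k : ℕ) (X : ℕ → Type) [∀ i, Fintype (X i)]
    [∀ i, MulAction Γ (X i)] : Prop :=
  Tendsto (fun i => (-1) ^ k * (Real.log (torsHn C k (X i)) / Nat.card (X i))) atTop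
    (𝓝 C.l2torsion)

/-- The statements about the torsion along the sequence `X i`, for the complex `C` and the matrices `R n` of a
chain map: (a) the alternating sum of the logarithms of the torsion, divided by `|X i|`, converges to the
`L²`-torsion; (b) the growth of the torsion in degree `n` is at most `log` of the determinant of `R n`; (c) if
these determinants are `1` in all degrees except possibly one degree `k`, then the torsion in degree `k` alone
gives the `L²`-torsion. -/
def TorsionLaws (C : FreeCx Γ) (R : ∀ n, Matrix (Fin (C.rank n)) (Fin (C.rank n)) (MonoidAlgebra ℤ Γ))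
    (X : ℕ → Type) [∀ i, Fintype (X i)] [∀ i, MulAction Γ (X i)] : Prop :=
  AlternatingLimit C X ∧ (∀ n, GrowthAtMost C n (fkd (R n)) X) ∧
    ∀ k ≤ C.dim, (∀ n, n ≠ k → fkd (R n) = 1) → TorsionLimit C k X

/-- The error term: `|X| ((log n) / n)^(1/2) + f log n`, where `f` is the number of points of `X` which are fixed by a
nontrivial word of length at most `n` in `S`. -/
noncomputable def err (S : Finset Γ) (X : Type) [Fintype X] [MulAction Γ X] (n : ℕ) : ℝ :=
  Nat.card X * (Real.log n / n) ^ (1 / 2 : ℝ) + (fixd (S : Set Γ) n X).card * Real.log n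

/-- The same with a rate, for all finite `Γ`-sets `X` and all `n ≥ 2`: (a) the alternating sum of the logarithms of
the torsion is `|X|` times the `L²`-torsion up to `K` times the error term; (b) the logarithm of the torsion in degree
`j` is at most `|X|` times the logarithm of the determinant of `R j` plus `K` times the error term; (c) if these
determinants are `1` in all degrees except possibly one degree `k`, then (a) holds for the torsion in degree `k`
alone. -/
def TorsionRates (S : Finset Γ) (C : FreeCx Γ)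
    (R : ∀ n, Matrix (Fin (C.rank n)) (Fin (C.rank n)) (MonoidAlgebra ℤ Γ)) : Prop :=
  (∃ K : ℝ, ∀ (X : Type) [Fintype X] [MulAction Γ X] (n : ℕ), 2 ≤ n →
    |∑ j ∈ Finset.range (C.dim + 1), (-1) ^ j * Real.log (torsHn C j X) - Nat.card X * C.l2torsion| ≤
      K * err S X n) ∧
  (∀ j, ∃ K : ℝ, ∀ (X : Type) [Fintype X] [MulAction Γ X] (n : ℕ), 2 ≤ n →
    Real.log (torsHn C j X) ≤ Nat.card X * Real.log (fkd (R j)) + K * err S X n) ∧
  ∀ k ≤ C.dim, (∀ j, j ≠ k → fkd (R j) = 1) →
    ∃ K : ℝ, ∀ (X : Type) [Fintype X] [MulAction Γ X] (n : ℕ), 2 ≤ n →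
      |(-1) ^ k * Real.log (torsHn C k X) - Nat.card X * C.l2torsion| ≤ K * err S X n

theorem err_eq (S : Finset Γ) (X : Type) [Fintype X] [MulAction Γ X] (n : ℕ) :
    err S X n = Fintype.card X * (Real.log n / n) ^ (1 / 2 : ℝ) +
      Real.log n * (fixd (S : Set Γ) n X).card := by
  unfold err
  rw [Nat.card_eq_fintype_card, mul_comm _ (Real.log n)]

theorem rates (S : Finset Γ) (hS : Subgroup.closure (S : Set Γ) = ⊤) (Λ : Subgroup Γ) [Λ.Normal]
    [Infinite Λ] (C : FreeCx Γ)
    (h : ∀ n, Matrix (Fin (C.rank n)) (Fin (C.rank (n + 1))) (MonoidAlgebra ℤ Γ))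
    (hR : ∀ n, Dominates Λ (homR C h n))
    (X₀ : ℕ → Type) [∀ i, Fintype (X₀ i)] [∀ i, Nonempty (X₀ i)] [∀ i, MulAction Γ (X₀ i)]
    (hX₀ : Far Γ X₀) : TorsionRates S C (homR C h) := by
  obtain ⟨T, hT⟩ := gens_of_dom Λ _ (hR 0)
  have halt := rate_alt u_mods S hS Λ T hT C ⟨h, hR⟩ X₀ hX₀
  have hdeg := fun j => rate_deg u_mods S hS Λ C h hR X₀ hX₀ j
  refine ⟨?_, fun j => ?_, fun k hk hone => ?_⟩
  · obtain ⟨K, -, h1⟩ := halt
    refine ⟨K, fun X _ _ n hn => ?_⟩
    rw [err_eq, Nat.card_eq_fintype_card]
    exact h1 X n hn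
  · obtain ⟨u, ⟨K, -, h1⟩, h2⟩ := hdeg j
    refine ⟨K, fun X _ _ n hn => ?_⟩
    have h3 := (abs_le.mp (h1 X n hn)).2
    have h4 := h2 X
    rw [err_eq, Nat.card_eq_fintype_card]
    unfold fkd
    linarith
  · have hz : ∀ j, j ≠ k → Rate S (1 / 2) (fun X => Real.log (torsHn C j X)) 0 := by
      intro j hj
      obtain ⟨u, h1, h2⟩ := hdeg j
      have h3 : Real.log (fkDet (rMul ((homR C h j).map toQ))) = 0 := by
        have := hone j hj
        unfold fkd at this
        rw [this, Real.log_one]
      rw [h3] at h1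
      refine Rate.squeeze (Rate.zero S _) h1 fun X _ _ => ⟨?_, h2 X⟩
      refine Real.log_nonneg ?_
      rw [torsHn_eq]
      exact_mod_cast Pool.Agent.Q96.TG.t_tc.2.2.1 _ _ _
    have hmem : k ∈ Finset.range (C.dim + 1) := Finset.mem_range.mpr (by omega)
    have h1 : Rate S (1 / 2) (fun X => ∑ j ∈ (Finset.range (C.dim + 1)).erase k,
        (-1 : ℝ) ^ j * Real.log (torsHn C j X)) (∑ j ∈ (Finset.range (C.dim + 1)).erase k, (-1 : ℝ) ^ j * 0) :=
      Rate.sum _ fun j hj => (hz j (Finset.ne_of_mem_erase hj)).smul _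
    have h2 := halt.add (h1.smul (-1))
    have e1 : C.l2torsion + -1 * ∑ j ∈ (Finset.range (C.dim + 1)).erase k, (-1 : ℝ) ^ j * 0 =
        C.l2torsion := by simp
    rw [e1] at h2
    obtain ⟨K, -, h3⟩ := h2
    refine ⟨K, fun X _ _ n hn => ?_⟩
    have h4 := h3 X n hn
    rw [err_eq, Nat.card_eq_fintype_card]
    have e2 : ∑ j ∈ Finset.range (C.dim + 1), (-1 : ℝ) ^ j * Real.log (torsHn C j X) +
        -1 * ∑ j ∈ (Finset.range (C.dim + 1)).erase k, (-1 : ℝ) ^ j * Real.log (torsHn C j X) =
        (-1) ^ k * Real.log (torsHn C k X) := by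
      rw [← Finset.add_sum_erase _ _ hmem]
      ring
    rw [← e2]
    exact h4

/-- Let `Λ` be an infinite normal subgroup of `Γ` and `C` a finite complex of finitely generated free
`ℤ[Γ]`-modules, of any length. Let the matrices `R n = ∂ h + h ∂` (in degree `n`) of a null-homotopic chain map
of `C` dominate Laplacians of `Λ`.

(1) Let `X i` be finite `Γ`-sets which converge to the free action (Farber condition). Then `C` is `L²`-acyclic
and all its Laplacians have positive determinants; the spectral distribution function of each Laplacian is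
`O(δ^(1/4))` at `0`; `(∑_n (-1)^n log |tors H_n(C ⊗ ℤ[X i])|) / |X i|` converges to the `L²`-torsion of `C`; the
upper limit of `log |tors H_n(C ⊗ ℤ[X i])| / |X i|` is at most the logarithm of the Fuglede-Kadison determinant
of `R n`; and if these determinants are `1` in the degrees other than `k`, then
`(-1)^k log |tors H_k(C ⊗ ℤ[X i])| / |X i|` converges to the `L²`-torsion of `C`.

(2) In particular this holds for all decreasing sequences `N i` of normal subgroups of finite index with trivial
intersection, with `X i = Γ/N i`.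

(3) Rate of convergence, uniform in all finite `Γ`-sets: if `Γ` is generated by the finite set `S` and has a sequence
as in (1), then the statements on the torsion hold for all finite `Γ`-sets `X` and all `n ≥ 2` up to an error of at most
`K (|X| ((log n) / n)^(1/2) + f log n)`, `f` the number of points of `X` fixed by a nontrivial word of length at most
`n`. -/
theorem result (Γ : Type) [Group Γ] (Λ : Subgroup Γ) [Λ.Normal] [Infinite Λ] (C : FreeCx Γ)
    (h : ∀ n, Matrix (Fin (C.rank n)) (Fin (C.rank (n + 1))) (MonoidAlgebra ℤ Γ))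
    (hR : ∀ n, Dominates Λ (homR C h n)) :
    (∀ (X : ℕ → Type) [∀ i, Fintype (X i)] [∀ i, Nonempty (X i)] [∀ i, MulAction Γ (X i)], Far Γ X →
      C.DetL2Acyclic ∧ (∀ n, LaplacianBound C n) ∧ TorsionLaws C (homR C h) X) ∧
    (∀ (N : ℕ → Subgroup Γ) [∀ i, (N i).Normal] [∀ i, Fintype (Γ ⧸ N i)], Antitone N → ⨅ i, N i = ⊥ →
      TorsionLaws C (homR C h) fun i => Γ ⧸ N i) ∧
    (∀ S : Finset Γ, Subgroup.closure (S : Set Γ) = ⊤ →
      (∃ (X : ℕ → Type) (_ : ∀ i, Fintype (X i)) (_ : ∀ i, Nonempty (X i)) (_ : ∀ i, MulAction Γ (X i)),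
        Far Γ X) → TorsionRates S C (homR C h)) := by
  have key : ∀ (X : ℕ → Type) [∀ i, Fintype (X i)] [∀ i, Nonempty (X i)] [∀ i, MulAction Γ (X i)],
      Far Γ X → C.DetL2Acyclic ∧ (∀ n, LaplacianBound C n) ∧ TorsionLaws C (homR C h) X := by
    intro X _ _ _ hX
    have hC : NullDominated Λ C := ⟨h, hR⟩
    have halt : AlternatingLimit C X := by
      have h1 := part2 t_fa u_red u_cmp Λ X hX C hC
      refine h1.congr fun i => ?_
      rw [Nat.card_eq_fintype_card]
    have hgr : ∀ n, GrowthAtMost C n (fkd (homR C h n)) X := by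
      intro n ε hε
      have h1 := part3 Λ X hX C h hR n ε hε
      filter_upwards [h1] with i hi
      rw [Nat.card_eq_fintype_card]
      exact hi
    refine ⟨acyc Λ X hX C hC, ?_, halt, hgr, ?_⟩
    · intro n
      obtain ⟨-, -, -, -, c, K, hc, hK, h4⟩ := main_low Λ _ _ (low_lap Λ C hC n) X hX
      obtain ⟨K', δ₀, hδ₀, h5⟩ := density _ 8 (by omega) c K hc hK h4
      refine ⟨K', δ₀, hδ₀, ?_⟩
      intro δ hδ hδ'
      have := h5 δ hδ hδ'
      rw [← laplacian_eq] at this
      push_cast at this
      exact this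
    · intro k hk hone
      have hcard : ∀ i, (0 : ℝ) < Nat.card (X i) := fun i => by
        exact_mod_cast Nat.card_pos
      have hz : ∀ n, n ≠ k → Tendsto (fun i => Real.log (torsHn C n (X i)) / Nat.card (X i)) atTop (𝓝 0) := by
        intro n hn
        have h1 := hgr n
        rw [hone n hn] at h1
        rw [Metric.tendsto_atTop']
        intro ε hε
        obtain ⟨N, hN⟩ := eventually_atTop.mp (h1 (ε / 2) (by linarith))
        refine ⟨N, fun i hi => ?_⟩
        have h2 := hN i hi.le
        rw [Real.log_one, zero_add] at h2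
        have h3 : (0 : ℝ) ≤ Real.log (torsHn C n (X i)) / Nat.card (X i) := by
          refine div_nonneg (Real.log_nonneg ?_) (hcard i).le
          rw [torsHn_eq]
          exact_mod_cast Pool.Agent.Q96.TG.t_tc.2.2.1 _ _ _
        rw [Real.dist_eq, sub_zero, abs_of_nonneg h3]
        linarith
      have hmem : k ∈ Finset.range (C.dim + 1) := Finset.mem_range.mpr (by omega)
      have hsplit : ∀ i, (-1 : ℝ) ^ k * (Real.log (torsHn C k (X i)) / Nat.card (X i)) =
          (∑ n ∈ Finset.range (C.dim + 1), (-1) ^ n * Real.log (torsHn C n (X i))) / Nat.card (X i) -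
          ∑ n ∈ (Finset.range (C.dim + 1)).erase k,
            (-1) ^ n * (Real.log (torsHn C n (X i)) / Nat.card (X i)) := by
        intro i
        rw [Finset.sum_div, ← Finset.add_sum_erase _ _ hmem]
        have : ∀ n, (-1 : ℝ) ^ n * Real.log (torsHn C n (X i)) / Nat.card (X i) =
          (-1) ^ n * (Real.log (torsHn C n (X i)) / Nat.card (X i)) := fun n => by ring
        simp only [this]
        ring
      have hlim : Tendsto (fun i => ∑ n ∈ (Finset.range (C.dim + 1)).erase k,
          (-1 : ℝ) ^ n * (Real.log (torsHn C n (X i)) / Nat.card (X i))) atTop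
          (𝓝 (∑ n ∈ (Finset.range (C.dim + 1)).erase k, (-1 : ℝ) ^ n * 0)) :=
        tendsto_finsetSum _ fun n hn => (hz n (Finset.ne_of_mem_erase hn)).const_mul _
      have := halt.sub hlim
      simp only [mul_zero, Finset.sum_const_zero, sub_zero] at this
      exact this.congr fun i => (hsplit i).symm
  refine ⟨key, fun N _ _ hanti hinf => ?_, ?_⟩
  rotate_left
  · rintro S hS ⟨X₀, _, _, _, hX₀⟩
    exact rates S hS Λ C h hR X₀ hX₀
  have hX : Far Γ (fun i => Γ ⧸ N i) := t_chain Γ N (fun i => inferInstance)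
    (fun i => Subgroup.finiteIndex_of_finite_quotient) hanti hinf
  exact (key (fun i => Γ ⧸ N i) hX).2.2

end Pool.Agent.Results.MP_98dedd_gt.DominatedHomotopies
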