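import Pool.Agent.D0H83.AC.Eff7

/-!
# `L²`-torsion and torsion homology for matrices whose real part dominates a Laplacian

`Γ` is a group, `FreeCx Γ` (starting library `Pool.Agent.TH630.Tor`) are the finite based free chain complexes over
`ℤ[Γ]`, with `C.l2torsion` and `C.DetL2Acyclic` defined by the Fuglede-Kadison determinants of the combinatorial
Laplacians over `Γ`. `torsHn C n X` is the order of the torsion subgroup of the homology in degree `n` of the
complex `C ⊗ ℤ[X]` of a finite `Γ`-set `X`; for `X = Γ/Γ_i` and the cellular chain complex of a universal cover it is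
the order of the torsion of `H_n` of the finite cover.

`Dominates Λ R` (`Pool.Agent.D0H83.AC`): `D (R + R*) = ∑_{t ∈ T} (2 - t - t⁻¹) · 1 + B B*` for a positive integer `D`, a
finite set `T` which generates the subgroup `Λ`, and a matrix `B` over `ℤ[Γ]`: the real part of `R` dominates the
Laplacian of a Cayley graph of `Λ`; the skew-adjoint part is arbitrary. `fixd S n X` is the set of the points of `X`
which are fixed by a nontrivial element of `ball S n`, the set of the products of at most `n` elements of `S` and their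
inverses.
-/

set_option autoImplicit false

namespace Pool.Agent.Results.MP_98dedd_gt.DominatedLaplacians

open Pool.Agent.D0H83.AC Pool.Agent.Q181.TG Pool.Agent.Helper993.FK Pool.Agent.TH630.Tor Filter Topology

variable {Γ : Type} [Group Γ]

/-- `(-1)^k log |tors H_k(C ⊗ ℤ[X i])| / |X i|` converges to the `L²`-torsion of `C`. -/
def TorsionLimit (C : FreeCx Γ) (k : ℕ) (X : ℕ → Type) [∀ i, Fintype (X i)]
    [∀ i, MulAction Γ (X i)] : Prop :=
  Tendsto (fun i => (-1) ^ k * (Real.log (torsHn C k (X i)) / Nat.card (X i))) atTop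
    (𝓝 C.l2torsion)

/-- The spectral distribution function of `A A*` is `O(δ^a)` at `0` (`specMeas`: the spectral measure of `A A*`
for the von Neumann trace). -/
def SpectralBound {r : ℕ} (A : Matrix (Fin r) (Fin r) (MonoidAlgebra ℤ Γ)) (a : ℝ) : Prop :=
  ∃ K δ₀ : ℝ, 0 < δ₀ ∧ ∀ δ : ℝ, 0 < δ → δ ≤ δ₀ →
    (specMeas unitVec (rMul (A.map toQ)) (Set.Iic δ)).toReal ≤ K * δ ^ a

/-- For some constant `K`, for all finite `Γ`-sets `X` and all `n ≥ 2`: the difference of
`(-1)^k log |tors H_k(C ⊗ ℤ[X])|` and `|X|` times the `L²`-torsion of `C` is at most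
`K (|X| ((log n) / n)^θ + f log n)`, where `f` is the number of points of `X` which are fixed by a nontrivial word of
length at most `n` in `S`. -/
def RateBound (S : Finset Γ) (θ : ℝ) (C : FreeCx Γ) (k : ℕ) : Prop :=
  ∃ K : ℝ, ∀ (X : Type) [Fintype X] [MulAction Γ X] (n : ℕ), 2 ≤ n →
    |(-1) ^ k * Real.log (torsHn C k X) - Nat.card X * C.l2torsion| ≤
      K * (Nat.card X * (Real.log n / n) ^ θ + (fixd (S : Set Γ) n X).card * Real.log n)

/-- Let `Λ` be an infinite normal subgroup of `Γ` and `C` a complex of finitely generated free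
`ℤ[Γ]`-modules with only two nonzero terms, of the same rank, in the degrees `k + 1` and `k`; let the matrix `A` of
its boundary map divide a product of `m ≥ 1` matrices which dominate Laplacians of `Λ`: `E A E' = R₁ ⋯ R_m`.

(1) Let `X i` be finite `Γ`-sets which converge to the free action (Farber condition). Then `C` is `L²`-acyclic
and all its Laplacians have positive determinants; the spectral distribution function of `A A*` is
`O(δ^(1/(4m)))` at `0`; and `(-1)^k log |tors H_k(C ⊗ ℤ[X i])| / |X i|` converges to the `L²`-torsion of `C`.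

(2) In particular this holds for all decreasing sequences `N i` of normal subgroups of finite index with trivial
intersection: `(-1)^k log |tors H_k(C ⊗ ℤ[Γ/N i])| / [Γ : N i]` converges to the `L²`-torsion of `C`.

(3) Rate of convergence, uniform in all finite `Γ`-sets: if `Γ` is generated by the finite set `S` and has a sequence
as in (1), then for all finite `Γ`-sets `X` and all `n ≥ 2` the difference of `(-1)^k log |tors H_k(C ⊗ ℤ[X])|` and `|X|`
times the `L²`-torsion of `C` is at most `K (|X| ((log n) / n)^(1/(2m)) + f log n)`, `f` the number of points of `X` fixed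
by a nontrivial word of length at most `n`. -/
theorem result (Γ : Type) [Group Γ] (Λ : Subgroup Γ) [Λ.Normal] [Infinite Λ]
    (C : FreeCx Γ) (k : ℕ) (h : C.rank (k + 1) = C.rank k)
    (hC : ∀ n, n ≠ k → n ≠ k + 1 → C.rank n = 0) (m : ℕ) (hm : 1 ≤ m)
    (hA : Divides Λ m (sqm C k h)) :
    (∀ (X : ℕ → Type) [∀ i, Fintype (X i)] [∀ i, Nonempty (X i)] [∀ i, MulAction Γ (X i)], Far Γ X →
      C.DetL2Acyclic ∧ SpectralBound (sqm C k h) (1 / (4 * m)) ∧ TorsionLimit C k X) ∧
    (∀ (N : ℕ → Subgroup Γ) [∀ i, (N i).Normal] [∀ i, Fintype (Γ ⧸ N i)], Antitone N → ⨅ i, N i = ⊥ →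
      TorsionLimit C k fun i => Γ ⧸ N i) ∧
    (∀ S : Finset Γ, Subgroup.closure (S : Set Γ) = ⊤ →
      (∃ (X : ℕ → Type) (_ : ∀ i, Fintype (X i)) (_ : ∀ i, Nonempty (X i)) (_ : ∀ i, MulAction Γ (X i)),
        Far Γ X) → RateBound S (1 / (2 * m)) C k) := by
  have key : ∀ (X : ℕ → Type) [∀ i, Fintype (X i)] [∀ i, Nonempty (X i)] [∀ i, MulAction Γ (X i)],
      Far Γ X → C.DetL2Acyclic ∧ SpectralBound (sqm C k h) (1 / (4 * m)) ∧ TorsionLimit C k X := by
    intro X _ _ _ hX
    have h1 := part1 Λ X hX C k h hC m hm hA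
    refine ⟨h1.1, h1.2.1, h1.2.2.congr fun i => ?_⟩
    rw [Nat.card_eq_fintype_card]
  refine ⟨key, fun N _ _ hanti hinf => ?_, ?_⟩
  rotate_left
  · rintro S hS ⟨X₀, _, _, _, hX₀⟩
    obtain ⟨K, -, hrate⟩ := rate_two u_mods S hS Λ C k h hC m hm hA X₀ hX₀
    refine ⟨K, fun X _ _ n hn => ?_⟩
    rw [Nat.card_eq_fintype_card, mul_comm _ (Real.log n)]
    exact hrate X n hn
  have hX : Far Γ (fun i => Γ ⧸ N i) := t_chain Γ N (fun i => inferInstance)
    (fun i => Subgroup.finiteIndex_of_finite_quotient) hanti hinf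
  exact (key (fun i => Γ ⧸ N i) hX).2.2

end Pool.Agent.Results.MP_98dedd_gt.DominatedLaplacians
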