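import Pool.Agent.D0H83.AC.Chr6

/-!
# Existence of the limits of the torsion homology for all chains of subgroups, in the dominated case

`Γ` is a group, `FreeCx Γ` (starting library `Pool.Agent.TH630.Tor`) are the finite based free chain complexes over
`ℤ[Γ]`. `torsHn C n X` is the order of the torsion subgroup of the homology in degree `n` of the complex `C ⊗ ℤ[X]` of
a finite `Γ`-set `X`; for `X = Γ/Γ_i` and the cellular chain complex of a universal cover it is the order of the torsion
of `H_n` of the finite cover. `tc (Cok (reg X A))` is the order of the torsion subgroup of the cokernel of the map of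
`ℤ[X]^r` given by the matrix `A` over `ℤ[Γ]`.

`Dominates Λ R` (`Pool.Agent.D0H83.AC`): `D (R + R*) = ∑_{t ∈ T} (2 - t - t⁻¹) · 1 + B B*` for a positive integer `D`, a
finite set `T` which generates the subgroup `Λ`, and a matrix `B` over `ℤ[Γ]`. `homR C h n` is the matrix in degree `n`
of the null-homotopic chain map `∂h + h∂` of `C`. `Divides Λ m A`: `E A E'` is a product of `m` matrices which dominate
Laplacians of `Λ`, for some square matrices `E`, `E'`.

`ball S n` is the set of the products of at most `n` elements of `S` and their inverses.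

The hypothesis on the covers is only that `Λ` has few orbits. The subgroups need not be normal, their intersection is
arbitrary, and the limit of the proportions of the fixed points is arbitrary.
-/

set_option autoImplicit false

namespace Pool.Agent.Results.MP_98dedd_gt.ExistenceForAllChains

open Pool.Agent.D0H83.AC Pool.Agent.Q181.TG Pool.Agent.Helper993.FK Pool.Agent.TH630.Tor Filter Topology

attribute [-instance] Pool.Agent.D0H8.AC.instFx

variable {Γ : Type} [Group Γ]

/-- The alternating sum `∑_n (-1)^n log |tors H_n(C ⊗ ℤ[X])|`, divided by `|X|`. -/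
noncomputable def torsionGrowth (C : FreeCx Γ) (X : Type) [Fintype X] [MulAction Γ X] : ℝ :=
  (∑ n ∈ Finset.range (C.dim + 1), (-1) ^ n * Real.log (torsHn C n X)) / Nat.card X

/-- `log |tors H_n(C ⊗ ℤ[X])|`, divided by `|X|`. -/
noncomputable def degreeGrowth (C : FreeCx Γ) (n : ℕ) (X : Type) [Fintype X] [MulAction Γ X] : ℝ :=
  Real.log (torsHn C n X) / Nat.card X

/-- The logarithm of the order of the torsion of the cokernel of `A` on `ℤ[X]^r`, divided by `|X|`. -/
noncomputable def cokerGrowth {r : ℕ} (A : Matrix (Fin r) (Fin r) (MonoidAlgebra ℤ Γ)) (X : Type) [Fintype X]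
    [MulAction Γ X] : ℝ :=
  Real.log (tc (Cok (reg X A))) / Nat.card X

/-- The proportion of the points of `X` which are fixed by `g`. -/
noncomputable def fixedRatio (g : Γ) (X : Type) [MulAction Γ X] : ℝ :=
  (Nat.card {x : X // g • x = x} : ℝ) / Nat.card X

/-- The number of the orbits of `Λ` on `X`, divided by `|X|`. -/
noncomputable def orbitRatio (Λ : Subgroup Γ) (X : Type) [MulAction Γ X] : ℝ :=
  (Nat.card (MulAction.orbitRel.Quotient Λ X) : ℝ) / Nat.card X

/-- The quantity `a` is nearly determined by finitely many proportions of fixed points, uniformly in all finite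
nonempty `Γ`-sets with few orbits of `Λ`. -/
def Determined (Λ : Subgroup Γ) (a : (X : Type) → [Fintype X] → [MulAction Γ X] → ℝ) : Prop :=
  ∀ ε : ℝ, 0 < ε → ∃ (F : Finset Γ) (δ : ℝ), 0 < δ ∧
    ∀ (X Y : Type) [Fintype X] [Nonempty X] [MulAction Γ X] [Fintype Y] [Nonempty Y] [MulAction Γ Y],
      (∀ g ∈ F, |fixedRatio g X - fixedRatio g Y| ≤ δ) → orbitRatio Λ X ≤ δ → orbitRatio Λ Y ≤ δ →
        |a X - a Y| ≤ ε

/-- The same with a rate, for a finite set `S` of generators: if the proportions of the fixed points of all elements of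
the ball of radius `n` are the same for `X` and `Y`, then `a X` and `a Y` differ by at most a constant times
`((log n) / n)^θ` plus `log n` times the proportions of the orbits of `Λ`, for all sufficiently large `n`. -/
def LocallyDetermined (S : Finset Γ) (Λ : Subgroup Γ) (θ : ℝ)
    (a : (X : Type) → [Fintype X] → [MulAction Γ X] → ℝ) : Prop :=
  ∃ (K : ℝ) (n₀ : ℕ), ∀ (X Y : Type) [Fintype X] [Nonempty X] [MulAction Γ X] [Fintype Y] [Nonempty Y]
    [MulAction Γ Y] (n : ℕ), n₀ ≤ n → (∀ g ∈ ball (S : Set Γ) n, fixedRatio g X = fixedRatio g Y) →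
      |a X - a Y| ≤ K * ((Real.log n / n) ^ θ + Real.log n * (orbitRatio Λ X + orbitRatio Λ Y))

/-- The limit of `a (X i)` exists and depends only on `χ`, for all sequences of finite nonempty `Γ`-sets `X i` for which
the proportion of the points fixed by `g` converges to `χ g`, for each `g`, and the number of the orbits of `Λ` is
`o(|X i|)`; and the limit exists for `X i = Γ/N i` for all decreasing sequences `N i` of subgroups of finite index
(not necessarily normal, with any intersection) with `[Λ : Λ ∩ N i] → ∞`. -/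
def LimitsExist (Λ : Subgroup Γ) (a : (X : Type) → [Fintype X] → [MulAction Γ X] → ℝ) : Prop :=
  (∀ χ : Γ → ℝ, ∃ ℓ : ℝ,
    ∀ (X : ℕ → Type) [∀ i, Fintype (X i)] [∀ i, Nonempty (X i)] [∀ i, MulAction Γ (X i)],
      (∀ g, Tendsto (fun i => fixedRatio g (X i)) atTop (𝓝 (χ g))) →
      Tendsto (fun i => orbitRatio Λ (X i)) atTop (𝓝 0) → Tendsto (fun i => a (X i)) atTop (𝓝 ℓ)) ∧
  ∀ (N : ℕ → Subgroup Γ) [∀ i, Fintype (Γ ⧸ N i)], Antitone N →
    Tendsto (fun i => (N i).relIndex Λ) atTop atTop → ∃ ℓ : ℝ, Tendsto (fun i => a (Γ ⧸ N i)) atTop (𝓝 ℓ)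

theorem fr_eq (g : Γ) (X : Type) [Fintype X] [MulAction Γ X] : fixedRatio g X = fr g X := by
  unfold fixedRatio fr
  rw [Nat.card_eq_fintype_card (α := X)]

theorem or_eq (Λ : Subgroup Γ) (X : Type) [Fintype X] [MulAction Γ X] :
    orbitRatio Λ X = yo Λ X / Fintype.card X := by
  unfold orbitRatio yo
  rw [Nat.card_eq_fintype_card (α := X)]

theorem or_le (Λ : Subgroup Γ) (X : Type) [Fintype X] [Nonempty X] [MulAction Γ X] (δ : ℝ)
    (h : orbitRatio Λ X ≤ δ) : yo Λ X ≤ δ * Fintype.card X := by
  have hX : (0 : ℝ) < Fintype.card X := by exact_mod_cast Fintype.card_pos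
  rwa [or_eq, div_le_iff₀ hX] at h

theorem of_unif (Λ : Subgroup Γ) [Λ.Normal] (a b : (X : Type) → [Fintype X] → [MulAction Γ X] → ℝ)
    (hab : ∀ (X : Type) [Fintype X] [MulAction Γ X], b X = a X / Fintype.card X) (ha : Unif Λ a) :
    Determined Λ b ∧ LimitsExist Λ b := by
  obtain ⟨L, hL⟩ := ha.char
  have hL' : ∀ (χ : Γ → ℝ) (X : ℕ → Type) [∀ i, Fintype (X i)] [∀ i, Nonempty (X i)]
      [∀ i, MulAction Γ (X i)], CharTo χ X → Pool.Agent.D0H83.AC.Small Λ X →
        Tendsto (fun i => b (X i)) atTop (𝓝 (L χ)) :=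
    fun χ X _ _ _ h1 h2 => (hL χ X h1 h2).congr fun i => (hab (X i)).symm
  refine ⟨?_, fun χ => ⟨L χ, ?_⟩, ?_⟩
  · intro ε hε
    obtain ⟨F, δ, hδ, hF⟩ := ha ε hε
    refine ⟨F, δ, hδ, fun X Y _ _ _ _ _ _ h1 h2 h3 => ?_⟩
    rw [hab, hab]
    exact hF X Y ⟨fun g hg => by rw [← fr_eq, ← fr_eq]; exact h1 g hg, or_le Λ X δ h2, or_le Λ Y δ h3⟩
  · intro X _ _ _ h1 h2
    exact hL' χ X (fun g => (h1 g).congr fun i => fr_eq g (X i)) (h2.congr fun i => or_eq Λ (X i))
  · intro N _ hanti hidx
    exact ⟨_, hL' _ (fun i => Γ ⧸ N i) (char_chain N hanti) (small_chain Λ N hidx)⟩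

theorem of_lrate (S : Finset Γ) (Λ : Subgroup Γ) (θ : ℝ)
    (a b : (X : Type) → [Fintype X] → [MulAction Γ X] → ℝ)
    (hab : ∀ (X : Type) [Fintype X] [MulAction Γ X], b X = a X / Fintype.card X) (ha : LRate S Λ θ a) :
    LocallyDetermined S Λ θ b := by
  obtain ⟨K, n₀, -, -, h⟩ := ha
  refine ⟨K, n₀, fun X Y _ _ _ _ _ _ n hn hg => ?_⟩
  rw [hab, hab, or_eq, or_eq]
  exact h X Y n hn fun g hgn => by rw [← fr_eq, ← fr_eq]; exact hg g hgn

/-- Let `Λ` be a normal subgroup of `Γ`.

(1) Let `A` be a square matrix over `ℤ[Γ]` which divides a product of matrices which dominate Laplacians of `Λ`. The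
growth `log |tors coker(A on ℤ[X]^r)| / |X|` is nearly determined by finitely many proportions of fixed points,
uniformly in the finite `Γ`-sets with few orbits of `Λ`; its limit exists for all decreasing sequences of
subgroups `N i` of finite index with `[Λ : Λ ∩ N i] → ∞`, and for all sequences of finite `Γ`-sets with convergent
proportions of fixed points and few orbits of `Λ`, where it depends only on the limits of the proportions. If the
proportions of the fixed points of all words of length at most `n` in a finite set of generators of `Γ` are the same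
for `X` and `Y`, the growths differ by at most a constant times `((log n) / n)^(1/(2m)) + o log n`, `o` the sum of the
proportions of the orbits of `Λ`, `m` the number of the factors.

Let `C` be a finite complex of finitely generated free `ℤ[Γ]`-modules, of any length, such that the matrices
`R n = ∂ h + h ∂` (in degree `n`) of a null-homotopic chain map of `C` dominate Laplacians of `Λ`.

(2) The same holds for the alternating sum of the logarithms of the orders of the torsion of the homology of
`C ⊗ ℤ[X]`, divided by `|X|`, with the exponent `1/2`.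

(3) For each `n` and `ε > 0` there is `δ > 0` such that `log |tors H_n(C ⊗ ℤ[X])| / |X|` is at most the growth of the
cokernel of `R n` plus `ε`, for all finite nonempty `X` with at most `δ |X|` orbits of `Λ`.

(4) If the number of the orbits of `Λ` on `X i` is `o(|X i|)` and the growth of the cokernel of `R n` converges to `0`
for all `n ≤ dim C` other than `k`, then the difference between `(-1)^k log |tors H_k(C ⊗ ℤ[X i])| / |X i|` and the
alternating sum divided by `|X i|` converges to `0`; so the limit in degree `k` alone exists in the cases of (2).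

(5) If `Λ` is infinite and `X i` converges to the free action, the limit in (2) is the `L²`-torsion of `C`. -/
theorem result (Γ : Type) [Group Γ] (Λ : Subgroup Γ) [Λ.Normal] :
    (∀ (r m : ℕ) (A : Matrix (Fin r) (Fin r) (MonoidAlgebra ℤ Γ)), 1 ≤ m → Divides Λ m A →
      Determined Λ (fun X => cokerGrowth A X) ∧ LimitsExist Λ (fun X => cokerGrowth A X) ∧
      ∀ S : Finset Γ, Subgroup.closure (S : Set Γ) = ⊤ →
        LocallyDetermined S Λ (1 / (2 * m)) (fun X => cokerGrowth A X)) ∧
    ∀ (C : FreeCx Γ) (h : ∀ n, Matrix (Fin (C.rank n)) (Fin (C.rank (n + 1))) (MonoidAlgebra ℤ Γ)),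
      (∀ n, Dominates Λ (homR C h n)) →
      (Determined Λ (fun X => torsionGrowth C X) ∧ LimitsExist Λ (fun X => torsionGrowth C X) ∧
        ∀ S : Finset Γ, Subgroup.closure (S : Set Γ) = ⊤ →
          LocallyDetermined S Λ (1 / 2) (fun X => torsionGrowth C X)) ∧
      (∀ n, ∀ ε : ℝ, 0 < ε → ∃ δ : ℝ, 0 < δ ∧ ∀ (X : Type) [Fintype X] [Nonempty X] [MulAction Γ X],
        orbitRatio Λ X ≤ δ → degreeGrowth C n X ≤ cokerGrowth (homR C h n) X + ε) ∧
      (∀ k ≤ C.dim, ∀ (X : ℕ → Type) [∀ i, Fintype (X i)] [∀ i, Nonempty (X i)] [∀ i, MulAction Γ (X i)],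
        Tendsto (fun i => orbitRatio Λ (X i)) atTop (𝓝 0) →
        (∀ n ≤ C.dim, n ≠ k → Tendsto (fun i => cokerGrowth (homR C h n) (X i)) atTop (𝓝 0)) →
          Tendsto (fun i => (-1) ^ k * degreeGrowth C k (X i) - torsionGrowth C (X i)) atTop (𝓝 0)) ∧
      (Infinite Λ →
        ∀ (X : ℕ → Type) [∀ i, Fintype (X i)] [∀ i, Nonempty (X i)] [∀ i, MulAction Γ (X i)], Far Γ X →
          Tendsto (fun i => torsionGrowth C (X i)) atTop (𝓝 C.l2torsion)) := by
  refine ⟨?_, ?_⟩
  · rintro r m A hm1 ⟨l, E, E', hl, hR, hE⟩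
    have hlow : Low Λ (4 * m) A := by
      rw [← hl]
      exact low_of_factor Λ l E _ E' hR hE
    have he : ∀ (X : Type) [Fintype X] [MulAction Γ X],
        cokerGrowth A X = Real.log (tc (Cok (reg X A))) / Fintype.card X := by
      intro X _ _
      unfold cokerGrowth
      rw [Nat.card_eq_fintype_card (α := X)]
    obtain ⟨h1, h2⟩ := of_unif Λ (fun X => Real.log (tc (Cok (reg X A)))) (fun X => cokerGrowth A X) he
      (unif_low u_mods Λ A (4 * m) (by omega) hlow).2
    refine ⟨h1, h2, fun S hS => ?_⟩
    have e1 : (1 / (2 * m) : ℝ) = 2 / ((4 * m : ℕ) : ℝ) := by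
      have : (0 : ℝ) < m := by exact_mod_cast hm1
      push_cast
      field_simp
      norm_num
    rw [e1]
    exact of_lrate S Λ _ (fun X => Real.log (tc (Cok (reg X A)))) _ he
      (lrate_low u_mods S hS Λ A (4 * m) (by omega) hlow)
  · intro C h hR
    have hC : NullDominated Λ C := ⟨h, hR⟩
    have hdeg : ∀ n, ∀ ε : ℝ, 0 < ε → ∃ δ : ℝ, 0 < δ ∧ ∀ (X : Type) [Fintype X] [Nonempty X]
        [MulAction Γ X], orbitRatio Λ X ≤ δ → degreeGrowth C n X ≤ cokerGrowth (homR C h n) X + ε := by
      intro n ε hε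
      obtain ⟨δ, hδ, h1⟩ := deg_bound u_mods Λ C h hR n ε hε
      refine ⟨δ, hδ, fun X _ _ _ hX => ?_⟩
      unfold degreeGrowth cokerGrowth
      rw [Nat.card_eq_fintype_card (α := X)]
      exact h1 X (or_le Λ X δ hX)
    refine ⟨?_, hdeg, ?_, ?_⟩
    · have he : ∀ (X : Type) [Fintype X] [MulAction Γ X], torsionGrowth C X =
          (∑ n ∈ Finset.range (C.dim + 1), (-1 : ℝ) ^ n * Real.log (torsHn C n X)) / Fintype.card X := by
        intro X _ _
        unfold torsionGrowth
        rw [Nat.card_eq_fintype_card (α := X)]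
      obtain ⟨h1, h2⟩ := of_unif Λ
        (fun X => ∑ n ∈ Finset.range (C.dim + 1), (-1 : ℝ) ^ n * Real.log (torsHn C n X))
        (fun X => torsionGrowth C X) he (unif_alt u_mods Λ C hC)
      exact ⟨h1, h2, fun S hS => of_lrate S Λ _
        (fun X => ∑ n ∈ Finset.range (C.dim + 1), (-1 : ℝ) ^ n * Real.log (torsHn C n X)) _ he
        (lrate_alt u_mods S hS Λ C hC)⟩
    · intro k hk X _ _ _ hY hz
      have hz' : ∀ n ≤ C.dim, n ≠ k → Tendsto (fun i => degreeGrowth C n (X i)) atTop (𝓝 0) := by
        intro n hn hnk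
        rw [Metric.tendsto_atTop]
        intro ε hε
        obtain ⟨δ, hδ, h1⟩ := hdeg n (ε / 2) (by linarith)
        obtain ⟨N, hN⟩ := eventually_atTop.mp ((hY.eventually_le_const hδ).and
          ((hz n hn hnk).eventually_lt_const (show (0 : ℝ) < ε / 2 by linarith)))
        refine ⟨N, fun i hi => ?_⟩
        obtain ⟨h2, h3⟩ := hN i hi
        have h4 := h1 (X i) h2
        have h5 : (0 : ℝ) ≤ degreeGrowth C n (X i) := by
          refine div_nonneg (Real.log_nonneg ?_) (Nat.cast_nonneg _)
          rw [torsHn_eq]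
          exact_mod_cast Pool.Agent.Q96.TG.t_tc.2.2.1 _ _ _
        rw [Real.dist_eq, sub_zero, abs_of_nonneg h5]
        linarith
      have hmem : k ∈ Finset.range (C.dim + 1) := Finset.mem_range.mpr (by omega)
      have hlim : Tendsto (fun i => -∑ n ∈ (Finset.range (C.dim + 1)).erase k,
          (-1 : ℝ) ^ n * degreeGrowth C n (X i)) atTop
          (𝓝 (-∑ n ∈ (Finset.range (C.dim + 1)).erase k, (-1 : ℝ) ^ n * 0)) :=
        (tendsto_finsetSum _ fun n hn => (hz' n
          (Nat.lt_succ_iff.mp (Finset.mem_range.mp (Finset.mem_of_mem_erase hn)))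
          (Finset.ne_of_mem_erase hn)).const_mul _).neg
      simp only [mul_zero, Finset.sum_const_zero, neg_zero] at hlim
      refine hlim.congr fun i => ?_
      have e1 : torsionGrowth C (X i) = ∑ n ∈ Finset.range (C.dim + 1),
          (-1 : ℝ) ^ n * degreeGrowth C n (X i) := by
        unfold torsionGrowth degreeGrowth
        rw [Finset.sum_div]
        refine Finset.sum_congr rfl fun n _ => ?_
        rw [mul_div_assoc]
      rw [e1, ← Finset.add_sum_erase _ _ hmem]
      ring
    · intro hinf X _ _ _ hX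
      refine (part2 t_fa u_red u_cmp Λ X hX C hC).congr fun i => ?_
      unfold torsionGrowth
      rw [Nat.card_eq_fintype_card (α := X i)]

end Pool.Agent.Results.MP_98dedd_gt.ExistenceForAllChains
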