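import Pool.Agent.D0H83.AC.Eff9

/-!
# The rate of convergence of torsion homology to `L²`-torsion: the self-adjoint case, with the optimal error term

`Γ` is a group, `FreeCx Γ` (starting library `Pool.Agent.TH630.Tor`) are the finite based free chain complexes over
`ℤ[Γ]`, with `C.l2torsion` defined by the Fuglede-Kadison determinants of the combinatorial Laplacians over `Γ`.
`torsHn C k X` is the order of the torsion subgroup of the homology in degree `k` of the complex `C ⊗ ℤ[X]` of a finite
`Γ`-set `X`; for `X = Γ/N` and the cellular chain complex of a universal cover it is the order of the torsion of `H_k` of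
the finite cover.

`Dominates Λ R` (`Pool.Agent.D0H83.AC`): `D (R + R*) = ∑_{t ∈ T} (2 - t - t⁻¹) · 1 + B B*` for a positive integer `D`, a
finite set `T` which generates the subgroup `Λ`, and a matrix `B` over `ℤ[Γ]`. So the self-adjoint matrices `R` with
this property are, up to the integer factor `2 D`, the sums of the Laplacian of a Cayley graph of `Λ` and `B B*`, with
an arbitrary matrix `B` over `ℤ[Γ]`.

`ball S n` is the set of the products of at most `n` elements of `S` and their inverses, and `fixd S n X` is the set of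
the points of `X` which are fixed by a nontrivial element of `ball S n`. `cong φ N` is the congruence subgroup of
level `N`, the kernel of the composition of `φ : Γ → GL_d(ℤ)` with the reduction modulo `N`; `sbg N` is the subgroup
`N ℤ` of `ℤ` (written multiplicatively), and `cycCx` is the complex over `ℤ[t, t⁻¹]` with terms of rank one in the
degrees `1` and `0` and the matrix `cyc`, that is `2 - t - t⁻¹`.
-/

set_option autoImplicit false

namespace Pool.Agent.Results.MP_98dedd_gt.OptimalRate

open Pool.Agent.D0H83.AC Pool.Agent.Q181.TG Pool.Agent.Helper993.FK Pool.Agent.TH630.Tor Filter Topology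

variable {Γ : Type} [Group Γ]

/-- For some constant `K`, for all finite `Γ`-sets `X` and all `n ≥ 2`: the difference of
`(-1)^k log |tors H_k(C ⊗ ℤ[X])|` and `|X|` times the `L²`-torsion of `C` is at most
`K (|X| (log n) / n + (log n) · f)`, where `f` is the number of points of `X` which are fixed by a nontrivial word of
length at most `n` in `S`. -/
def ErrorBound (S : Finset Γ) (C : FreeCx Γ) (k : ℕ) : Prop :=
  ∃ K : ℝ, ∀ (X : Type) [Fintype X] [MulAction Γ X] (n : ℕ), 2 ≤ n →
    |(-1) ^ k * Real.log (torsHn C k X) - Fintype.card X * C.l2torsion| ≤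
      K * (Fintype.card X * (Real.log n / n) + Real.log n * (fixd (S : Set Γ) n X).card)

/-- For some constant `K`, for all normal subgroups `N` of finite index which contain no nontrivial word of length
at most `n` in `S`, `n ≥ 2`: `(-1)^k log |tors H_k(C ⊗ ℤ[Γ/N])| / [Γ : N]` differs from the `L²`-torsion of `C` by
at most `K (log n) / n`. -/
def NormalBound (S : Finset Γ) (C : FreeCx Γ) (k : ℕ) : Prop :=
  ∃ K : ℝ, ∀ (N : Subgroup Γ) [N.Normal] [Fintype (Γ ⧸ N)] (n : ℕ), 2 ≤ n →
    (∀ g ∈ ball (S : Set Γ) n, g ≠ 1 → g ∉ N) →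
    |(-1) ^ k * Real.log (torsHn C k (Γ ⧸ N)) / Fintype.card (Γ ⧸ N) - C.l2torsion| ≤
      K * (Real.log n / n)

/-- For some constant `K`, for all `N ≥ 3`: the congruence subgroup `cong φ N` has finite index, and
`(-1)^k log |tors H_k(C ⊗ ℤ[Γ/cong φ N])| / [Γ : cong φ N]` differs from the `L²`-torsion of `C` by at most
`K (log log N) / log N`. -/
def CongruenceBound (C : FreeCx Γ) (k : ℕ) {d : ℕ} (φ : Γ →* GL (Fin d) ℤ) : Prop :=
  ∃ K : ℝ, ∀ N : ℕ, 3 ≤ N → Finite (Γ ⧸ cong φ N) ∧ ∀ [Fintype (Γ ⧸ cong φ N)],
    |(-1) ^ k * Real.log (torsHn C k (Γ ⧸ cong φ N)) / Fintype.card (Γ ⧸ cong φ N) - C.l2torsion| ≤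
      K * (Real.log (Real.log N) / Real.log N)

/-- `C` has only two nonzero terms, of the same rank, in the degrees `k + 1` and `k`, and the matrix of its boundary
map is self-adjoint and dominates a Laplacian of `Λ`. -/
def SelfAdjointDominated (Λ : Subgroup Γ) (C : FreeCx Γ) (k : ℕ) : Prop :=
  ∃ h : C.rank (k + 1) = C.rank k, (∀ n, n ≠ k → n ≠ k + 1 → C.rank n = 0) ∧
    Dominates Λ (sqm C k h) ∧ adjZ (sqm C k h) = sqm C k h

/-- Let `Γ` be generated by the finite set `S`, let `Λ` be an infinite normal subgroup of `Γ` and `C` a complex of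
finitely generated free `ℤ[Γ]`-modules with only two nonzero terms, of the same rank, in the degrees `k + 1` and `k`,
such that the matrix of the boundary map is self-adjoint and dominates a Laplacian of `Λ`.

(1) If `Γ` has a sequence of finite `Γ`-sets which converges to the free action (Farber condition), then
`(-1)^k log |tors H_k(C ⊗ ℤ[X])|` is `|X|` times the `L²`-torsion of `C`, for all finite `Γ`-sets `X` and all `n ≥ 2` up
to an error of at most `K (|X| (log n) / n + (log n) · f)`, `f` the number of points of `X` fixed by a nontrivial word of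
length at most `n`; in particular, for normal subgroups of finite index without nontrivial words of length at most
`n` the error in the formula of the problem is at most `K (log n) / n`.

(2) If `φ : Γ → GL_d(ℤ)` is injective, the error is at most `K (log log N) / log N` for the congruence subgroup of
level `N ≥ 3`.

(3) The error term is optimal up to the constant: for `Γ = ℤ` and the matrix `2 - t - t⁻¹` (the complex `cycCx`, which
satisfies the assumptions, with `Λ = ℤ`, `k = 0`), and `X = ℤ/N`, no nontrivial word of length less than `N` has a fixed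
point, and the difference is equal to `log N`. -/
theorem result :
    (∀ (Γ : Type) [Group Γ] (S : Finset Γ), Subgroup.closure (S : Set Γ) = ⊤ →
      ∀ (Λ : Subgroup Γ) [Λ.Normal] [Infinite Λ] (C : FreeCx Γ) (k : ℕ), SelfAdjointDominated Λ C k →
        ((∃ (X : ℕ → Type) (_ : ∀ i, Fintype (X i)) (_ : ∀ i, Nonempty (X i))
          (_ : ∀ i, MulAction Γ (X i)), Far Γ X) → ErrorBound S C k ∧ NormalBound S C k) ∧
        ∀ (d : ℕ) (φ : Γ →* GL (Fin d) ℤ), Function.Injective φ → CongruenceBound C k φ) ∧
    (SelfAdjointDominated (⊤ : Subgroup (Multiplicative ℤ)) cycCx 0 ∧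
      ∀ N : ℕ, 1 ≤ N → Finite (Multiplicative ℤ ⧸ sbg N) ∧ ∀ [Fintype (Multiplicative ℤ ⧸ sbg N)],
        Fintype.card (Multiplicative ℤ ⧸ sbg N) = N ∧
        (∀ n < N, fixd {Multiplicative.ofAdd (1 : ℤ)} n (Multiplicative ℤ ⧸ sbg N) = ∅) ∧
        |Real.log (torsHn cycCx 0 (Multiplicative ℤ ⧸ sbg N)) - N * cycCx.l2torsion| = Real.log N) := by
  classical
  refine ⟨?_, ?_⟩
  · intro Γ _ S hS Λ _ _ C k ⟨h, hC, hR, hadj⟩
    refine ⟨?_, ?_⟩
    · rintro ⟨X₀, _, _, _, hX₀⟩
      obtain ⟨K, hK, hrate⟩ := rate_two_self u_mods S hS Λ C k h hC hR hadj X₀ hX₀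
      simp only [Real.rpow_one] at hrate
      refine ⟨⟨K, hrate⟩, K, ?_⟩
      intro N _ _ n hn hfree
      have h1 := hrate (Γ ⧸ N) n hn
      have h2 : fixd (S : Set Γ) n (Γ ⧸ N) = ∅ := by
        rw [Finset.eq_empty_iff_forall_notMem]
        intro x hx
        rw [fixd, Finset.mem_filter] at hx
        obtain ⟨-, g, hg, hg1, hgx⟩ := hx
        refine hfree g hg hg1 ?_
        obtain ⟨y, rfl⟩ := QuotientGroup.mk_surjective x
        rw [MulAction.Quotient.smul_mk, QuotientGroup.eq, smul_eq_mul] at hgx
        have h3 : y⁻¹ * g⁻¹ * y ∈ N := by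
          have e : (g * y)⁻¹ * y = y⁻¹ * g⁻¹ * y := by group
          rwa [e] at hgx
        have h4 := Subgroup.Normal.conj_mem ‹N.Normal› _ h3 y
        have e2 : y * (y⁻¹ * g⁻¹ * y) * y⁻¹ = g⁻¹ := by group
        rw [e2] at h4
        exact N.inv_mem_iff.mp h4
      rw [h2, Finset.card_empty, Nat.cast_zero, mul_zero, add_zero] at h1
      have hX : (0 : ℝ) < Fintype.card (Γ ⧸ N) := by exact_mod_cast Fintype.card_pos
      have e1 : (-1) ^ k * Real.log (torsHn C k (Γ ⧸ N)) / Fintype.card (Γ ⧸ N) - C.l2torsion =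
          ((-1) ^ k * Real.log (torsHn C k (Γ ⧸ N)) - Fintype.card (Γ ⧸ N) * C.l2torsion) /
            Fintype.card (Γ ⧸ N) := by
        field_simp
      rw [e1, abs_div, abs_of_pos hX, div_le_iff₀ hX]
      refine h1.trans (le_of_eq ?_)
      ring
    · intro d φ hφ
      have hfin : ∀ i, Fintype (Γ ⧸ cong φ (i + 1)) := fun i => by
        have := finite_cong φ (i + 1) (by omega)
        exact Fintype.ofFinite _
      have hX₀ := far_cong S hS φ hφ
      have hrate := rate_two_self u_mods S hS Λ C k h hC hR hadj (fun i => Γ ⧸ cong φ (i + 1)) hX₀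
      obtain ⟨K, hK, h1⟩ := rate_cong hrate one_pos φ hφ
      refine ⟨K, fun N hN => ⟨finite_cong φ N (by omega), ?_⟩⟩
      intro _
      have h2 := h1 N hN
      rw [Real.rpow_one] at h2
      exact h2
  · refine ⟨⟨rfl, fun n hn hn1 => cyc_two n hn hn1, ?_, ?_⟩, fun N hN => ⟨finite_sbg N hN, ?_⟩⟩
    · rw [sqm_cyc]
      exact cyc_dom
    · rw [sqm_cyc]
      exact cyc_adj
    intro _
    obtain ⟨-, h2, h3⟩ := Pool.Agent.D0H82.AC.t_cyc N hN
    refine ⟨h2, h3, ?_⟩
    have h4 : torsHn cycCx 0 (Multiplicative ℤ ⧸ sbg N) = N := by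
      rw [torsHn_eq]
      exact tc_cyc N hN
    rw [h4, tors_cyc, mul_zero, sub_zero]
    exact abs_of_nonneg (Real.log_natCast_nonneg N)

end Pool.Agent.Results.MP_98dedd_gt.OptimalRate
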